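import Pool.Agent.H27.HB.TA
import Pool.Agent.H27.HB.TD

/-!
# Row CNT of the board hbe_modules: centring of functions (MP_8352e3_an)
-/

set_option autoImplicit false

namespace Pool.Agent.H13.HB
open MeasureTheory Set Filter Topology Pool.Agent.H80.HS Pool.Agent.H93.HQ Pool.Agent.H27.HB
open scoped ContDiff ENNReal

theorem dil_mul {n : ℕ} (r : ℝ) (a b : H n) : dil r (mul a b) = mul (dil r a) (dil r b) := by
  unfold dil mul
  refine Prod.ext ?_ (Prod.ext ?_ ?_)
  · simp [smul_add]
  · simp [smul_add]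
  · simp only [inner_smul_left, inner_smul_right, conj_trivial]
    ring

theorem mul_neg_mul {n : ℕ} (c z : H n) : mul c (mul (-c) z) = z := by
  unfold mul
  refine Prod.ext ?_ (Prod.ext ?_ ?_)
  · simp
  · simp
  · simp only [Prod.fst_neg, Prod.snd_neg, inner_neg_left, inner_neg_right,
      inner_add_right, real_inner_comm]
    ring

theorem dil_neg {n : ℕ} (r : ℝ) (a : H n) : dil r (-a) = -dil r a := by
  unfold dil
  refine Prod.ext ?_ (Prod.ext ?_ ?_) <;> simp

theorem key {n : ℕ} {r : ℝ} (hr : r ≠ 0) (a y : H n) :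
    dil r (mul a (dil r⁻¹ (mul (dil r (-a)) y))) = y := by
  rw [dil_mul, dil_dil_inv hr, dil_neg, mul_neg_mul]

theorem pf_CNT (hCEN : T_CEN) (hACV : T_ACV) : T_CNT := by
  intro n hn p hp hp' u hu hms
  have hps : 0 < ps n p := by
    unfold ps
    have h1 : 0 < 2 * (n : ℝ) + 2 - p := by linarith
    positivity
  have hint : Integrable (fun z => |u z| ^ ps n p) := by
    have h1 := hu.integrable_norm_rpow (by simpa using hps) ENNReal.ofReal_ne_top
    rw [ENNReal.toReal_ofReal hps.le] at h1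
    exact h1
  obtain ⟨a0, r0, hr0, hc⟩ := hCEN n hn (fun z => |u z| ^ ps n p) hint
    (fun z => Real.rpow_nonneg (abs_nonneg _) _) hms
  refine ⟨dil r0 (-a0), r0⁻¹, inv_pos.2 hr0, fun i b => ?_⟩
  have h4 := (hACV n hn p hp hp' (dil r0 (-a0)) r0⁻¹ (inv_pos.2 hr0)).2.2.2.1 u
    (fun x => rz i b (dil r0 (mul a0 x)))
  simp only [key hr0.ne'] at h4
  rw [h4]
  exact hc i b

end Pool.Agent.H13.HB
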